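import Pool.Agent.W443.J6.Stms

/-! J6-CZ: the chain of approximations for the twisted bracket. -/

set_option autoImplicit false

open MvPolynomial Pool.Agent.H938R2.JC Pool.Agent.W443.J6

namespace Pool.Agent.W108.J6

universe u

section one

variable {k : Type u} [Field k] [CharZero k]

open Polynomial in
theorem lc_eq {A B : k[X]} (hA : A ≠ 0) (hB : B ≠ 0) {x y : ℤ}
    (h : Polynomial.C (x : k) * derivative A * B = Polynomial.C (y : k) * A * derivative B) :
    x * (A.natDegree : ℤ) = y * (B.natDegree : ℤ) := by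
  have hXd : ∀ P : k[X], (Polynomial.X * derivative P).natDegree ≤ P.natDegree := by
    intro P
    by_cases h0 : P.natDegree = 0
    · rw [Polynomial.eq_C_of_natDegree_eq_zero h0]
      simp
    · refine (Polynomial.natDegree_mul_le).trans ?_
      have h1 := Polynomial.natDegree_derivative_lt h0
      have h2 := Polynomial.natDegree_X_le (R := k)
      omega
  have hXc : ∀ P : k[X], (Polynomial.X * derivative P).coeff P.natDegree =
      (P.natDegree : k) * P.leadingCoeff := by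
    intro P
    by_cases h0 : P.natDegree = 0
    · rw [h0]
      simp
    · obtain ⟨d, hd⟩ := Nat.exists_eq_succ_of_ne_zero h0
      rw [Polynomial.leadingCoeff, hd, Polynomial.coeff_X_mul, Polynomial.coeff_derivative]
      push_cast
      ring
  have h1 : Polynomial.C (x : k) * ((Polynomial.X * derivative A) * B) =
      Polynomial.C (y : k) * (A * (Polynomial.X * derivative B)) := by
    linear_combination Polynomial.X * h
  have h2 := congrArg (fun P => P.coeff (A.natDegree + B.natDegree)) h1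
  simp only [Polynomial.coeff_C_mul] at h2
  rw [Polynomial.coeff_mul_add_eq_of_natDegree_le (hXd A) le_rfl,
    Polynomial.coeff_mul_add_eq_of_natDegree_le le_rfl (hXd B), hXc, hXc] at h2
  have hlA : A.leadingCoeff ≠ 0 := Polynomial.leadingCoeff_ne_zero.2 hA
  have hlB : B.leadingCoeff ≠ 0 := Polynomial.leadingCoeff_ne_zero.2 hB
  have h3 : (x : k) * (A.natDegree : k) = (y : k) * (B.natDegree : k) := by
    have h4 : ((x : k) * (A.natDegree : k)) * (A.leadingCoeff * B.leadingCoeff) =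
        ((y : k) * (B.natDegree : k)) * (A.leadingCoeff * B.leadingCoeff) := by
      rw [Polynomial.leadingCoeff, Polynomial.leadingCoeff] at *
      linear_combination h2
    exact mul_right_cancel₀ (mul_ne_zero hlA hlB) h4
  exact_mod_cast h3

open Polynomial in
theorem prop_of_wr {P Q : k[X]} (hQ : Q ≠ 0) (h : derivative P * Q = P * derivative Q) :
    ∃ c : k, P = Polynomial.C c * Q := by
  by_cases hP : P = 0
  · exact ⟨0, by rw [hP]; simp⟩
  have h1 : ∀ R : k[X], R ≠ 0 → derivative R * Q = R * derivative Q → R.natDegree = Q.natDegree := by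
    intro R hR h2
    have h3 := lc_eq (x := 1) (y := 1) hR hQ (by simpa using h2)
    omega
  have hlQ : Q.leadingCoeff ≠ 0 := Polynomial.leadingCoeff_ne_zero.2 hQ
  refine ⟨P.leadingCoeff / Q.leadingCoeff, ?_⟩
  by_contra hne
  set c := P.leadingCoeff / Q.leadingCoeff with hc
  have hR : P - Polynomial.C c * Q ≠ 0 := sub_ne_zero.2 hne
  have h2 : derivative (P - Polynomial.C c * Q) * Q = (P - Polynomial.C c * Q) * derivative Q := by
    rw [Polynomial.derivative_sub, Polynomial.derivative_C_mul]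
    linear_combination h
  have h3 := h1 _ hR h2
  have h4 := h1 _ hP h
  have h5 : (P - Polynomial.C c * Q).leadingCoeff = 0 := by
    rw [Polynomial.leadingCoeff, h3, Polynomial.coeff_sub, Polynomial.coeff_C_mul,
      ← Polynomial.leadingCoeff, ← h4, ← Polynomial.leadingCoeff, hc, div_mul_cancel₀ _ hlQ,
      sub_self]
  exact hR (Polynomial.leadingCoeff_eq_zero.1 h5)

end one

section two

variable {k : Type u} [Field k]

theorem ev0_mul (f g : MvPolynomial (Fin 2) k) : ev0 (f * g) = ev0 f * ev0 g := map_mul _ _ _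
theorem ev0_add (f g : MvPolynomial (Fin 2) k) : ev0 (f + g) = ev0 f + ev0 g := map_add _ _ _
theorem ev0_sub (f g : MvPolynomial (Fin 2) k) : ev0 (f - g) = ev0 f - ev0 g := map_sub _ _ _
theorem ev0_pow (f : MvPolynomial (Fin 2) k) (n : ℕ) : ev0 (f ^ n) = ev0 f ^ n := map_pow _ _ _
theorem ev0_C (a : k) : ev0 (C a : MvPolynomial (Fin 2) k) = Polynomial.C a := by
  unfold ev0
  rw [aeval_C]
  rfl
theorem ev0_X0 : ev0 (X 0 : MvPolynomial (Fin 2) k) = 0 := by
  unfold ev0
  rw [aeval_X]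
  rfl
theorem ev0_X1 : ev0 (X 1 : MvPolynomial (Fin 2) k) = Polynomial.X := by
  unfold ev0
  rw [aeval_X]
  rfl

theorem ev0_pderiv (g : MvPolynomial (Fin 2) k) :
    ev0 (pderiv 1 g) = Polynomial.derivative (ev0 g) := by
  induction g using MvPolynomial.induction_on with
  | C a =>
    rw [pderiv_C, ev0_C, Polynomial.derivative_C]
    exact map_zero _
  | add p q hp hq => rw [map_add, ev0_add, ev0_add, hp, hq, Polynomial.derivative_add]
  | mul_X p i hp =>
    rw [pderiv_mul, ev0_add, ev0_mul, ev0_mul, ev0_mul, hp, Polynomial.derivative_mul]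
    fin_cases i
    · show _ * ev0 (X 0) + _ * ev0 (pderiv 1 (X 0)) = _ * ev0 (X 0) + _ * Polynomial.derivative (ev0 (X 0))
      rw [ev0_X0, pderiv_X_of_ne (by decide)]
      simp [ev0]
    · show _ * ev0 (X 1) + _ * ev0 (pderiv 1 (X 1)) = _ * ev0 (X 1) + _ * Polynomial.derivative (ev0 (X 1))
      rw [ev0_X1, pderiv_X_self]
      simp [ev0]

theorem split0 (g : MvPolynomial (Fin 2) k) :
    ∃ q : MvPolynomial (Fin 2) k, g = X 0 * q + Polynomial.aeval (X 1) (ev0 g) := by
  induction g using MvPolynomial.induction_on with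
  | C a =>
    refine ⟨0, ?_⟩
    rw [ev0_C, Polynomial.aeval_C]
    simp [MvPolynomial.algebraMap_eq]
  | add p q hp hq =>
    obtain ⟨a, ha⟩ := hp
    obtain ⟨b, hb⟩ := hq
    refine ⟨a + b, ?_⟩
    rw [ev0_add, map_add]
    nth_rewrite 1 [ha]
    nth_rewrite 1 [hb]
    ring
  | mul_X p i hp =>
    obtain ⟨a, ha⟩ := hp
    fin_cases i
    · refine ⟨p, ?_⟩
      show p * X 0 = X 0 * p + Polynomial.aeval (X 1) (ev0 (p * X 0))
      rw [ev0_mul, ev0_X0, mul_zero, map_zero]
      ring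
    · refine ⟨a * X 1, ?_⟩
      show p * X 1 = X 0 * (a * X 1) + Polynomial.aeval (X 1) (ev0 (p * X 1))
      rw [ev0_mul, ev0_X1, map_mul, Polynomial.aeval_X]
      nth_rewrite 1 [ha]
      ring

theorem X_dvd {g : MvPolynomial (Fin 2) k} (h : ev0 g = 0) : X 0 ∣ g := by
  obtain ⟨q, hq⟩ := split0 g
  rw [h, map_zero, add_zero] at hq
  exact ⟨q, hq⟩

theorem exists_pow {g : MvPolynomial (Fin 2) k} (hg : g ≠ 0) :
    ∃ (r : ℕ) (g' : MvPolynomial (Fin 2) k), g = X 0 ^ r * g' ∧ ev0 g' ≠ 0 := by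
  have hX : ¬ IsUnit (X 0 : MvPolynomial (Fin 2) k) := (X_prime).not_isUnit
  obtain ⟨g', h1, h2⟩ := (FiniteMultiplicity.of_not_isUnit hX hg).exists_eq_pow_mul_and_not_dvd
  exact ⟨_, g', h1, fun h => h2 (X_dvd h)⟩

theorem ev0_BB (D E : ℤ) (f g : MvPolynomial (Fin 2) k) :
    ev0 (BB D E f g) = Polynomial.C (E : k) * Polynomial.derivative (ev0 f) * ev0 g -
      Polynomial.C (D : k) * ev0 f * Polynomial.derivative (ev0 g) := by
  unfold BB
  rw [ev0_add, ev0_sub, ev0_mul, ev0_mul, ev0_mul, ev0_mul, ev0_mul, ev0_X0, ev0_C, ev0_C,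
    ev0_pderiv, ev0_pderiv]
  ring

theorem BB_sub (D E : ℤ) (f g h : MvPolynomial (Fin 2) k) :
    BB D E f (g - h) = BB D E f g - BB D E f h := by
  unfold BB J
  rw [map_sub, map_sub]
  ring

theorem BB_C_mul (D E : ℤ) (a : k) (f g : MvPolynomial (Fin 2) k) :
    BB D E f (C a * g) = C a * BB D E f g := by
  unfold BB J
  rw [pderiv_C_mul, pderiv_C_mul]
  ring

theorem BB_pow (D E : ℤ) (f g : MvPolynomial (Fin 2) k) (s : ℕ) :
    BB D ((s + 1 : ℕ) * E) f (g ^ (s + 1)) = C ((s : k) + 1) * g ^ s * BB D E f g := by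
  unfold BB J
  rw [pderiv_pow, pderiv_pow]
  simp only [Nat.add_sub_cancel]
  have h1 : (C (((((s + 1 : ℕ) : ℤ) * E : ℤ)) : k) : MvPolynomial (Fin 2) k) =
      C ((s : k) + 1) * C (E : k) := by
    rw [← C_mul]
    push_cast
    rfl
  have h2 : (((s + 1 : ℕ) : ℕ) : MvPolynomial (Fin 2) k) = C ((s : k) + 1) := by
    rw [map_add, map_one, map_natCast]
    push_cast
    rfl
  rw [h1, h2]
  ring

theorem BB_self (D : ℤ) (f : MvPolynomial (Fin 2) k) (s : ℕ) : BB D (D * s) f (f ^ s) = 0 := by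
  unfold BB J
  rcases s with _ | s
  · simp
  · rw [pderiv_pow, pderiv_pow]
    simp only [Nat.add_sub_cancel]
    have h1 : (C (((D * ((s + 1 : ℕ) : ℤ) : ℤ)) : k) : MvPolynomial (Fin 2) k) =
        C ((s : k) + 1) * C (D : k) := by
      rw [← C_mul]
      push_cast
      rw [mul_comm]
    have h2 : (((s + 1 : ℕ) : ℕ) : MvPolynomial (Fin 2) k) = C ((s : k) + 1) := by
      rw [map_add, map_one, map_natCast]
      push_cast
      rfl
    rw [h1, h2]
    ring

theorem BB_Xpow (D E : ℤ) (f g : MvPolynomial (Fin 2) k) (r : ℕ) :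
    BB D E f (X 0 ^ r * g) = X 0 ^ r * BB D (E - r) f g := by
  unfold BB J
  rw [pderiv_mul, pderiv_mul, pderiv_pow, pderiv_pow, pderiv_X_self, pderiv_X_of_ne (by decide)]
  have h1 : (C ((((E - (r : ℤ) : ℤ)) : ℤ) : k) : MvPolynomial (Fin 2) k) =
      C (E : k) - C (r : k) := by
    rw [← C_sub]
    push_cast
    rfl
  rw [h1]
  rcases r with _ | r
  · simp
  · have h2 : (((r + 1 : ℕ) : ℕ) : MvPolynomial (Fin 2) k) = C (((r + 1 : ℕ)) : k) := by
      rw [map_natCast]
    rw [h2]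
    simp only [Nat.add_sub_cancel]
    ring

end two

section main

variable {k : Type u} [Field k] [CharZero k]

open Polynomial in
theorem wr_pow {α β : k[X]} {d e : ℕ}
    (h : Polynomial.C ((((e : ℕ) : ℤ)) : k) * derivative α * β =
      Polynomial.C ((((d + 1 : ℕ) : ℤ)) : k) * α * derivative β) (hα : α ≠ 0) :
    derivative (β ^ (d + 1)) * α ^ e = β ^ (d + 1) * derivative (α ^ e) := by
  have hd : (((d + 1 : ℕ) : ℤ) : k) ≠ 0 := by
    have : (((d + 1 : ℕ) : ℤ) : k) = ((d + 1 : ℕ) : k) := by push_cast; rfl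
    rw [this]
    exact Nat.cast_ne_zero.2 (Nat.succ_ne_zero d)
  rcases e with _ | e
  · have h1 : derivative β = 0 := by
      simp only [Nat.cast_zero, Int.cast_zero, map_zero, zero_mul] at h
      have h2 := (mul_eq_zero.1 h.symm).resolve_left (mul_ne_zero (Polynomial.C_ne_zero.2 hd) hα)
      exact h2
    rw [Polynomial.derivative_pow, h1]
    simp
  · rw [Polynomial.derivative_pow, Polynomial.derivative_pow]
    simp only [Nat.add_sub_cancel]
    have e1 : (Polynomial.C (((d + 1 : ℕ)) : k) : k[X]) = Polynomial.C ((((d + 1 : ℕ) : ℤ)) : k) := by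
      push_cast
      rfl
    have e2 : (Polynomial.C (((e + 1 : ℕ)) : k) : k[X]) = Polynomial.C ((((e + 1 : ℕ) : ℤ)) : k) := by
      push_cast
      rfl
    rw [e1, e2]
    linear_combination (-(β ^ d * α ^ e)) * h

theorem chain (f : MvPolynomial (Fin 2) k) (D : ℤ) (hD : 0 < D)
    (hf : 0 < (ev0 f).natDegree) : ∀ (μ : ℕ) (g H : MvPolynomial (Fin 2) k) (E w : ℤ) (c c1 : k)
    (S T : ℕ), c ≠ 0 → BB D E f g = C c * X 0 ^ μ * H → ev0 H ≠ 0 → ev0 g ≠ 0 → 1 ≤ S →
    c1 ≠ 0 → ev0 H ^ S = Polynomial.C c1 * ev0 f ^ T → (S : ℤ) * (D + E - μ - w) = T * D →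
    ∃ (E' : ℤ) (q h : Polynomial k) (S T : ℕ) (c1 : k), 1 ≤ S ∧ c1 ≠ 0 ∧ h ≠ 0 ∧
      h ^ S = Polynomial.C c1 * (ev0 f) ^ T ∧ (S : ℤ) * (D + E' - w) = T * D ∧
      Polynomial.C (E' : k) * Polynomial.derivative (ev0 f) * q -
        Polynomial.C (D : k) * ev0 f * Polynomial.derivative q = h := by
  intro μ
  induction μ using Nat.strong_induction_on with
  | _ μ ih =>
    intro g H E w c c1 S T hc hBB hH hg hS hc1 hHS hw
    have hα0 : ev0 f ≠ 0 := by
      intro h
      rw [h] at hf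
      simp at hf
    have hev := congrArg ev0 hBB
    rw [ev0_BB, ev0_mul, ev0_mul, ev0_C, ev0_pow, ev0_X0] at hev
    rcases Nat.eq_zero_or_pos μ with h0 | h0
    · subst h0
      rw [pow_zero, mul_one] at hev
      refine ⟨E, ev0 g, Polynomial.C c * ev0 H, S, T, c ^ S * c1, hS,
        mul_ne_zero (pow_ne_zero _ hc) hc1, mul_ne_zero (Polynomial.C_ne_zero.2 hc) hH, ?_, ?_, hev⟩
      · rw [mul_pow, hHS, ← Polynomial.C_pow, Polynomial.C_mul]
        ring
      · simpa using hw
    · rw [zero_pow h0.ne', mul_zero, zero_mul] at hev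
      have hwr : Polynomial.C (E : k) * Polynomial.derivative (ev0 f) * ev0 g =
          Polynomial.C (D : k) * ev0 f * Polynomial.derivative (ev0 g) := sub_eq_zero.1 hev
      have hdeg := lc_eq hα0 hg hwr
      have hE : 0 ≤ E := by
        by_contra hcon
        push Not at hcon
        have h1 : (0 : ℤ) < ((ev0 f).natDegree : ℤ) := by exact_mod_cast hf
        have h2 : (0 : ℤ) ≤ ((ev0 g).natDegree : ℤ) := Int.natCast_nonneg _
        have h3 : E * ((ev0 f).natDegree : ℤ) < 0 := mul_neg_of_neg_of_pos hcon h1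
        have h4 : 0 ≤ D * ((ev0 g).natDegree : ℤ) := mul_nonneg hD.le h2
        omega
      obtain ⟨d, rfl⟩ : ∃ d : ℕ, D = ((d + 1 : ℕ) : ℤ) := ⟨(D - 1).toNat, by omega⟩
      obtain ⟨e, rfl⟩ : ∃ e : ℕ, E = (e : ℤ) := Int.eq_ofNat_of_zero_le hE
      obtain ⟨c2, hc2⟩ : ∃ c2 : k, ev0 g ^ (d + 1) = Polynomial.C c2 * ev0 f ^ e :=
        prop_of_wr (pow_ne_zero _ hα0) (wr_pow hwr hα0)
      have hc20 : c2 ≠ 0 := by
        rintro rfl
        rw [map_zero, zero_mul] at hc2
        exact pow_ne_zero _ hg hc2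
      have hdk : (d : k) + 1 ≠ 0 := by
        have : ((d + 1 : ℕ) : k) ≠ 0 := Nat.cast_ne_zero.2 (Nat.succ_ne_zero d)
        exact_mod_cast this
      set G : MvPolynomial (Fin 2) k := g ^ (d + 1) - C c2 * f ^ e with hG
      have hBG : BB ((d + 1 : ℕ) : ℤ) (((d + 1 : ℕ) : ℤ) * (e : ℤ)) f G =
          C ((d : k) + 1) * g ^ d * (C c * X 0 ^ μ * H) := by
        rw [hG, BB_sub, BB_C_mul, BB_self, mul_zero, sub_zero, BB_pow, hBB]
      have hevG : ev0 G = 0 := by
        rw [hG, ev0_sub, ev0_pow, ev0_mul, ev0_C, ev0_pow, hc2, sub_self]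
      have hg0 : g ≠ 0 := by
        rintro rfl
        exact hg (map_zero _)
      have hH0 : H ≠ 0 := by
        rintro rfl
        exact hH (map_zero _)
      have hGne : G ≠ 0 := by
        intro h
        rw [h] at hBG
        have h1 : BB ((d + 1 : ℕ) : ℤ) (((d + 1 : ℕ) : ℤ) * (e : ℤ)) f 0 = 0 := by
          unfold BB J
          simp
        rw [h1] at hBG
        have h2 : C ((d : k) + 1) * g ^ d * (C c * X 0 ^ μ * H) ≠ 0 := by
          refine mul_ne_zero (mul_ne_zero ?_ (pow_ne_zero _ hg0))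
            (mul_ne_zero (mul_ne_zero ?_ (pow_ne_zero _ (X_ne_zero 0))) hH0)
          · rw [Ne, MvPolynomial.C_eq_zero]
            exact hdk
          · rw [Ne, MvPolynomial.C_eq_zero]
            exact hc
        exact h2 hBG.symm
      obtain ⟨r, G', hG', hevG'⟩ := exists_pow hGne
      have hr1 : 1 ≤ r := by
        by_contra hcon
        have hr0 : r = 0 := by omega
        rw [hr0, pow_zero, one_mul] at hG'
        rw [← hG'] at hevG'
        exact hevG' hevG
      rw [hG', BB_Xpow] at hBG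
      have hX0 : ∀ t : ℕ, (X 0 : MvPolynomial (Fin 2) k) ^ t ≠ 0 := fun t =>
        pow_ne_zero _ (X_ne_zero 0)
      have hrμ : r ≤ μ := by
        by_contra hcon
        obtain ⟨t, ht⟩ : ∃ t, r = μ + (t + 1) := ⟨r - μ - 1, by omega⟩
        have h1 : X 0 ^ μ * (X 0 ^ (t + 1) *
            BB ((d + 1 : ℕ) : ℤ) (((d + 1 : ℕ) : ℤ) * (e : ℤ) - r) f G') =
            X 0 ^ μ * (C ((d : k) + 1) * g ^ d * (C c * H)) := by
          rw [← mul_assoc, ← pow_add, ← ht, hBG]
          ring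
        have h2 := mul_left_cancel₀ (hX0 μ) h1
        have h3 := congrArg ev0 h2
        rw [ev0_mul, ev0_pow, ev0_X0, zero_pow (Nat.succ_ne_zero t), zero_mul, ev0_mul, ev0_mul,
          ev0_mul, ev0_C, ev0_C, ev0_pow] at h3
        exact (mul_ne_zero (mul_ne_zero (Polynomial.C_ne_zero.2 hdk) (pow_ne_zero _ hg))
          (mul_ne_zero (Polynomial.C_ne_zero.2 hc) hH)) h3.symm
      obtain ⟨μ', rfl⟩ : ∃ μ', μ = r + μ' := ⟨μ - r, by omega⟩
      have hBG' : BB ((d + 1 : ℕ) : ℤ) (((d + 1 : ℕ) : ℤ) * (e : ℤ) - r) f G' =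
          C (c * ((d : k) + 1)) * X 0 ^ μ' * (g ^ d * H) := by
        apply mul_left_cancel₀ (hX0 r)
        rw [hBG, C_mul, pow_add]
        ring
      refine ih μ' (by omega) G' (g ^ d * H) (((d + 1 : ℕ) : ℤ) * (e : ℤ) - r) w
        (c * ((d : k) + 1)) (c2 ^ (d * S) * c1 ^ (d + 1)) ((d + 1) * S)
        (e * (d * S) + T * (d + 1)) (mul_ne_zero hc hdk) hBG' ?_ hevG' ?_
        (mul_ne_zero (pow_ne_zero _ hc20) (pow_ne_zero _ hc1)) ?_ ?_
      · rw [ev0_mul, ev0_pow]
        exact mul_ne_zero (pow_ne_zero _ hg) hH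
      · exact Nat.mul_pos (Nat.succ_pos d) hS
      · rw [ev0_mul, ev0_pow]
        calc (ev0 g ^ d * ev0 H) ^ ((d + 1) * S) =
            (ev0 g ^ (d + 1)) ^ (d * S) * (ev0 H ^ S) ^ (d + 1) := by
              rw [mul_pow, ← pow_mul, ← pow_mul, ← pow_mul]
              congr 2 <;> ring
          _ = Polynomial.C (c2 ^ (d * S) * c1 ^ (d + 1)) * ev0 f ^ (e * (d * S) + T * (d + 1)) := by
              rw [hc2, hHS, mul_pow, mul_pow, Polynomial.C_mul, Polynomial.C_pow,
                Polynomial.C_pow, pow_add, pow_mul, pow_mul]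
              ring
      · push_cast at hw ⊢
        linear_combination ((d : ℤ) + 1) * hw

theorem cz : S_CZ.{u} := by
  intro k _ _ f g D E μ c hc hD hBB hf hg
  obtain ⟨E', q, h, S, T, c1, h1, h2, h3, h4, h5, h6⟩ := chain f D hD hf μ g 1 E (D + E - μ) c 1 1 0
    hc (by rw [hBB, mul_one]) (by
      have : ev0 (1 : MvPolynomial (Fin 2) k) = 1 := map_one _
      rw [this]
      exact one_ne_zero) hg le_rfl one_ne_zero (by
      have : ev0 (1 : MvPolynomial (Fin 2) k) = 1 := map_one _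
      rw [this]
      simp) (by push_cast; ring)
  exact ⟨E', q, h, S, T, c1, h1, h2, h3, h4, h5, h6⟩

end main

end Pool.Agent.W108.J6
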